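import Mathlib
import Pool.Agent.Helper74.RR.R14

set_option autoImplicit false

namespace Pool.Agent.Results.MP_1cdd17_nt.DivergesOffRootsOfUnity

open Finset Pool.Agent.Helper74.RR

/-! ### The objects of the problem -/

/-- Numerators: `A_0 = 1`, `A_1 = 1 + x`, `A_n = A_{n-1} + x^n A_{n-2}`. -/
noncomputable def numA (x : ℂ) : ℕ → ℂ
  | 0 => 1
  | 1 => 1 + x
  | (n + 2) => numA x (n + 1) + x ^ (n + 2) * numA x n

/-- Denominators: `B_0 = 1`, `B_1 = 1`, `B_n = B_{n-1} + x^n B_{n-2}`. -/
noncomputable def denB (x : ℂ) : ℕ → ℂ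
  | 0 => 1
  | 1 => 1
  | (n + 2) => denB x (n + 1) + x ^ (n + 2) * denB x n

/-- The `n`-th approximant `A_n / B_n` in the Riemann sphere `OnePoint ℂ`. -/
noncomputable def approx (x : ℂ) (n : ℕ) : OnePoint ℂ :=
  if denB x n = 0 then OnePoint.infty else ((numA x n / denB x n : ℂ) : OnePoint ℂ)

/-- Convergence of the Rogers-Ramanujan continued fraction. -/
def Converges (x : ℂ) : Prop :=
  ∃ L : OnePoint ℂ, Filter.Tendsto (approx x) Filter.atTop (nhds L)

/-! ### Sanity checks -/

theorem not_both_zero (x : ℂ) (hx : x ≠ 0) (n : ℕ) : ¬ (numA x n = 0 ∧ denB x n = 0) := by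
  induction n with
  | zero => rintro ⟨h, _⟩; exact one_ne_zero h
  | succ n ih =>
    rintro ⟨h1, h2⟩
    apply ih
    match n, ih, h1, h2 with
    | 0, _, _, h2 => exact absurd h2 one_ne_zero
    | (m + 1), ih, h1, h2 =>
      exfalso
      have key : ∀ k : ℕ, numA x (k + 1) * denB x k - numA x k * denB x (k + 1) ≠ 0 := by
        intro k
        induction k with
        | zero =>
          show (1 + x) * 1 - 1 * 1 ≠ 0
          have : (1 + x) * 1 - 1 * 1 = x := by ring
          rw [this]; exact hx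
        | succ k ihk =>
          have : numA x (k + 1 + 1) * denB x (k + 1) - numA x (k + 1) * denB x (k + 1 + 1)
              = -(x ^ (k + 2)) * (numA x (k + 1) * denB x k - numA x k * denB x (k + 1)) := by
            show (numA x (k + 1) + x ^ (k + 2) * numA x k) * denB x (k + 1)
              - numA x (k + 1) * (denB x (k + 1) + x ^ (k + 2) * denB x k) = _
            ring
          rw [this]
          exact mul_ne_zero (neg_ne_zero.2 (pow_ne_zero _ hx)) ihk
      apply key (m + 1)
      rw [h1, h2]; ring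

/-- first approximants: `1`, `1 + x`, `1 + x / (1 + x ^ 2)` -/
theorem approx_zero (x : ℂ) : approx x 0 = ((1 : ℂ) : OnePoint ℂ) := by
  simp [approx, numA, denB]

theorem approx_one (x : ℂ) : approx x 1 = ((1 + x : ℂ) : OnePoint ℂ) := by
  simp [approx, numA, denB]

theorem approx_two (x : ℂ) (h : 1 + x ^ 2 ≠ 0) :
    approx x 2 = ((1 + x / (1 + x ^ 2) : ℂ) : OnePoint ℂ) := by
  have h2 : denB x 2 = 1 + x ^ 2 := by simp [denB]
  have h3 : numA x 2 = 1 + x + x ^ 2 := by simp [numA]
  unfold approx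
  rw [h2, if_neg h, h3]
  congr 1
  field_simp
  ring

theorem num_one (n : ℕ) : numA 1 n = (Nat.fib (n + 2) : ℂ) ∧ numA 1 (n + 1) = (Nat.fib (n + 3) : ℂ) := by
  induction n with
  | zero =>
    constructor
    · simp [numA]
    · show (1 : ℂ) + 1 = _
      have : Nat.fib (0 + 3) = 2 := by decide
      rw [this]; norm_num
  | succ n ih =>
    refine ⟨ih.2, ?_⟩
    show numA 1 (n + 1) + 1 ^ (n + 2) * numA 1 n = _
    have h := Nat.fib_add_two (n := n + 2)
    have h2 : n + 1 + 3 = n + 2 + 2 := by ring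
    rw [ih.1, ih.2, h2, h]
    push_cast
    ring

theorem den_one (n : ℕ) : denB 1 n = (Nat.fib (n + 1) : ℂ) ∧ denB 1 (n + 1) = (Nat.fib (n + 2) : ℂ) := by
  induction n with
  | zero => constructor <;> simp [denB]
  | succ n ih =>
    refine ⟨ih.2, ?_⟩
    show denB 1 (n + 1) + 1 ^ (n + 2) * denB 1 n = _
    have h := Nat.fib_add_two (n := n + 1)
    have h2 : n + 1 + 2 = n + 1 + 2 := rfl
    rw [ih.1, ih.2, h]
    push_cast
    ring

/-- at `x = 1` the continued fraction converges (to the golden ratio) -/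
theorem converges_one : Converges 1 := by
  refine ⟨((Real.goldenRatio : ℂ) : OnePoint ℂ), ?_⟩
  have h1 := (tendsto_fib_succ_div_fib_atTop).comp (Filter.tendsto_add_atTop_nat 1)
  have h2 : Filter.Tendsto (fun n : ℕ => (((Nat.fib (n + 1 + 1) / Nat.fib (n + 1) : ℝ)) : ℂ)) Filter.atTop
      (nhds (Real.goldenRatio : ℂ)) := (Complex.continuous_ofReal.tendsto _).comp h1
  have h3 := (OnePoint.continuous_coe.tendsto (Real.goldenRatio : ℂ)).comp h2
  refine h3.congr ?_
  intro n
  have hne : denB 1 n ≠ 0 := by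
    rw [(den_one n).1]
    exact_mod_cast (Nat.fib_pos.2 (Nat.succ_pos n)).ne'
  unfold approx
  rw [if_neg hne, (den_one n).1, (num_one n).1]
  simp

/-- there are points of the unit circle that are not roots of unity -/
theorem exists_point : ∃ x : ℂ, ‖x‖ = 1 ∧ ∀ n : ℕ, 0 < n → x ^ n ≠ 1 := by
  refine ⟨e (Real.sqrt 2), norm_e _, ?_⟩
  intro n hn h
  rw [e_pow] at h
  unfold e at h
  rw [Complex.exp_eq_one_iff] at h
  obtain ⟨k, hk⟩ := h
  have hpi : (2 * Real.pi * Complex.I : ℂ) ≠ 0 := Complex.two_pi_I_ne_zero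
  have h1 : (((n : ℝ) * Real.sqrt 2 : ℝ) : ℂ) = (k : ℂ) := by
    apply mul_right_cancel₀ hpi
    linear_combination hk
  have h2 : (n : ℝ) * Real.sqrt 2 = k := by exact_mod_cast h1
  have h3 : Irrational ((n : ℝ) * Real.sqrt 2) := irrational_sqrt_two.natCast_mul hn.ne'
  exact h3 ⟨k, by rw [h2]; norm_cast⟩

/-! ### Reduction to the bound along good denominators -/

theorem numA_eq (t : ℝ) (n : ℕ) : numA (e t) n = seqA t (n + 1) := by
  induction n using Nat.strong_induction_on with
  | _ n ih =>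
    match n, ih with
    | 0, _ => rfl
    | 1, _ =>
      show 1 + e t = seqA t (0 + 1) + e (t * ((0 : ℕ) + 1)) * seqA t 0
      simp [seqA]
    | (m + 2), ih =>
      show numA (e t) (m + 1) + e t ^ (m + 2) * numA (e t) m
        = seqA t (m + 1 + 1) + e (t * ((m + 1 : ℕ) + 1)) * seqA t (m + 1)
      rw [ih (m + 1) (by omega), ih m (by omega), e_pow]
      congr 2
      congr 1
      push_cast
      ring

theorem denB_eq (t : ℝ) (n : ℕ) : denB (e t) n = seqB t (n + 1) := by
  induction n using Nat.strong_induction_on with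
  | _ n ih =>
    match n, ih with
    | 0, _ => rfl
    | 1, _ =>
      show (1 : ℂ) = seqB t (0 + 1) + e (t * ((0 : ℕ) + 1)) * seqB t 0
      simp [seqB]
    | (m + 2), ih =>
      show denB (e t) (m + 1) + e t ^ (m + 2) * denB (e t) m
        = seqB t (m + 1 + 1) + e (t * ((m + 1 : ℕ) + 1)) * seqB t (m + 1)
      rw [ih (m + 1) (by omega), ih m (by omega), e_pow]
      congr 2
      congr 1
      push_cast
      ring

theorem det_norm (x : ℂ) (hx : ‖x‖ = 1) (n : ℕ) :
    ‖numA x (n + 1) * denB x n - numA x n * denB x (n + 1)‖ = 1 := by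
  induction n with
  | zero =>
    show ‖(1 + x) * 1 - 1 * 1‖ = 1
    have : (1 + x) * 1 - 1 * 1 = x := by ring
    rw [this, hx]
  | succ n ih =>
    have : numA x (n + 1 + 1) * denB x (n + 1) - numA x (n + 1) * denB x (n + 1 + 1)
        = -(x ^ (n + 2)) * (numA x (n + 1) * denB x n - numA x n * denB x (n + 1)) := by
      show (numA x (n + 1) + x ^ (n + 2) * numA x n) * denB x (n + 1)
        - numA x (n + 1) * (denB x (n + 1) + x ^ (n + 2) * denB x n) = _
      ring
    rw [this, norm_mul, norm_neg, norm_pow, hx, ih]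
    simp

theorem not_converges (x : ℂ) (hx : ‖x‖ = 1) (C : ℝ) (hC : 1 ≤ C)
    (H : ∀ N : ℕ, ∃ n ≥ N, ‖numA x n‖ ≤ C ∧ ‖numA x (n + 1)‖ ≤ C ∧ ‖denB x n‖ ≤ C ∧ ‖denB x (n + 1)‖ ≤ C) :
    ¬ Converges x := by
  rintro ⟨L, hL⟩
  have hfin : ∀ l : ℂ, L ≠ (l : OnePoint ℂ) := by
    intro l hl
    subst hl
    set ε : ℝ := 1 / (4 * C ^ 2) with hε
    have hεpos : 0 < ε := by positivity
    have hopen : IsOpen ((fun z : ℂ => (z : OnePoint ℂ)) '' Metric.ball l ε) :=
      OnePoint.isOpenEmbedding_coe.isOpenMap _ Metric.isOpen_ball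
    have hev := hL.eventually (hopen.mem_nhds ⟨l, Metric.mem_ball_self hεpos, rfl⟩)
    rw [Filter.eventually_atTop] at hev
    obtain ⟨N, hN⟩ := hev
    obtain ⟨n, hn, a0, a1, b0, b1⟩ := H N
    have key : ∀ m ≥ N, ‖denB x m‖ ≤ C → ‖numA x m - l * denB x m‖ ≤ ε * C := by
      intro m hm hb
      obtain ⟨z, hz, hz2⟩ := hN m hm
      unfold approx at hz2
      split_ifs at hz2 with h0
      · exact absurd hz2 (OnePoint.coe_ne_infty z)
      · have hz3 : z = numA x m / denB x m := OnePoint.coe_injective hz2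
        rw [Metric.mem_ball, dist_eq_norm] at hz
        have e1 : numA x m - l * denB x m = (z - l) * denB x m := by
          rw [hz3]; field_simp
        rw [e1, norm_mul]
        exact mul_le_mul hz.le hb (norm_nonneg _) hεpos.le
    have k0 := key n hn b0
    have k1 := key (n + 1) (by omega) b1
    have hdet := det_norm x hx n
    have e2 : numA x (n + 1) * denB x n - numA x n * denB x (n + 1)
        = (numA x (n + 1) - l * denB x (n + 1)) * denB x n
          - (numA x n - l * denB x n) * denB x (n + 1) := by ring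
    rw [e2] at hdet
    have h3 := norm_sub_le ((numA x (n + 1) - l * denB x (n + 1)) * denB x n)
      ((numA x n - l * denB x n) * denB x (n + 1))
    rw [hdet, norm_mul, norm_mul] at h3
    have h4 : ‖numA x (n + 1) - l * denB x (n + 1)‖ * ‖denB x n‖ ≤ (ε * C) * C :=
      mul_le_mul k1 b0 (norm_nonneg _) (by positivity)
    have h5 : ‖numA x n - l * denB x n‖ * ‖denB x (n + 1)‖ ≤ (ε * C) * C :=
      mul_le_mul k0 b1 (norm_nonneg _) (by positivity)
    have h6 : (ε * C) * C = 1 / 4 := by rw [hε]; field_simp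
    linarith
  have hinf : L ≠ OnePoint.infty := by
    intro hl
    subst hl
    set R : ℝ := 4 * C ^ 2 with hR
    have hRpos : 0 < R := by positivity
    have hopen : IsOpen (((fun z : ℂ => (z : OnePoint ℂ)) '' Metric.closedBall 0 R)ᶜ) :=
      OnePoint.isOpen_compl_image_coe.2 ⟨Metric.isClosed_closedBall, isCompact_closedBall 0 R⟩
    have hmem : (OnePoint.infty : OnePoint ℂ) ∈ ((fun z : ℂ => (z : OnePoint ℂ)) '' Metric.closedBall 0 R)ᶜ := by
      rintro ⟨z, _, hz⟩
      exact OnePoint.coe_ne_infty z hz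
    have hev := hL.eventually (hopen.mem_nhds hmem)
    rw [Filter.eventually_atTop] at hev
    obtain ⟨N, hN⟩ := hev
    obtain ⟨n, hn, a0, a1, b0, b1⟩ := H N
    have key : ∀ m ≥ N, ‖numA x m‖ ≤ C → ‖denB x m‖ ≤ C / R := by
      intro m hm ha
      have h1 := hN m hm
      unfold approx at h1
      split_ifs at h1 with h0
      · rw [h0, norm_zero]; positivity
      · have h2 : ¬ ‖numA x m / denB x m‖ ≤ R := by
          intro h3
          apply h1
          exact ⟨numA x m / denB x m, by simpa using h3, rfl⟩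
        push Not at h2
        have hb : 0 < ‖denB x m‖ := norm_pos_iff.2 h0
        rw [norm_div, lt_div_iff₀ hb] at h2
        rw [le_div_iff₀ hRpos]
        linarith
    have k0 := key n hn a0
    have k1 := key (n + 1) (by omega) a1
    have hdet := det_norm x hx n
    have h3 := norm_sub_le (numA x (n + 1) * denB x n) (numA x n * denB x (n + 1))
    rw [hdet, norm_mul, norm_mul] at h3
    have h4 : ‖numA x (n + 1)‖ * ‖denB x n‖ ≤ C * (C / R) :=
      mul_le_mul a1 k0 (norm_nonneg _) (by positivity)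
    have h5 : ‖numA x n‖ * ‖denB x (n + 1)‖ ≤ C * (C / R) :=
      mul_le_mul a0 k1 (norm_nonneg _) (by positivity)
    have h6 : C * (C / R) = 1 / 4 := by rw [hR]; field_simp
    linarith
  induction L using OnePoint.rec with
  | infty => exact hinf rfl
  | coe l => exact hfin l rfl

theorem exists_e (x : ℂ) (hx : ‖x‖ = 1) : ∃ t : ℝ, x = e t := by
  refine ⟨Complex.arg x / (2 * Real.pi), ?_⟩
  have h := Complex.norm_mul_exp_arg_mul_I x
  rw [hx] at h
  unfold e
  have h2 : (2 * Real.pi * ((Complex.arg x / (2 * Real.pi) : ℝ) : ℂ) * Complex.I) = Complex.arg x * Complex.I := by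
    have : (Real.pi : ℂ) ≠ 0 := by exact_mod_cast Real.pi_ne_zero
    push_cast
    field_simp
  rw [h2]
  simpa using h.symm

theorem not_converges_of_not_root (x : ℂ) (hx : ‖x‖ = 1) (hroot : ∀ n : ℕ, 0 < n → x ^ n ≠ 1) : ¬ Converges x := by
  obtain ⟨t, rfl⟩ := exists_e x hx
  have ht : Irrational t := by
    rintro ⟨r, hr⟩
    apply hroot r.den r.den_pos
    rw [e_pow, ← hr]
    have : (r.den : ℝ) * (r : ℝ) = (r.num : ℤ) := by
      have := Rat.den_mul_eq_num r
      exact_mod_cast this
    rw [this, e_int]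
  obtain ⟨M, hM, hsel⟩ := select t ht
  obtain ⟨C, hC1, hC⟩ := seq_bound M hM
  apply not_converges (e t) hx C hC1
  intro N
  obtain ⟨X, hXt, hXd⟩ := hsel (N + 1)
  obtain ⟨a0, a1, b0, b1⟩ := hC X
  rw [hXt] at a0 a1 b0 b1
  have hd1 : X.d - 1 + 1 = X.d := by have := X.hd; omega
  refine ⟨X.d - 1, by omega, ?_, ?_, ?_, ?_⟩
  · rw [numA_eq, hd1]; exact a0
  · rw [numA_eq, hd1]; exact a1
  · rw [denB_eq, hd1]; exact b0
  · rw [denB_eq, hd1]; exact b1

/-- The set of points of the unit circle that are not roots of unity at which the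
Rogers-Ramanujan continued fraction converges is empty. -/
theorem result : {x : ℂ | ‖x‖ = 1 ∧ (∀ n : ℕ, 0 < n → x ^ n ≠ 1) ∧ Converges x} = ∅ := by
  ext x
  simp only [Set.mem_ofPred_eq, Set.mem_empty_iff_false, iff_false]
  rintro ⟨h1, h2, h3⟩
  exact not_converges_of_not_root x h1 h2 h3

end Pool.Agent.Results.MP_1cdd17_nt.DivergesOffRootsOfUnity
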